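import Mathlib

/-!
Structure block, (S1): the crossing lemma.

`S` is the finite set of the primes of `n` (any finite set of naturals with positive monotone weights
`w`, for us `w = log`), `v(I)` is the sum of the weights over `I`, `X - 1 ≤ v(S) ≤ X`.
NS: for `p ∈ S` and `I ⊆ S_{≥ p}` the number `v(S_{<p}) + v(I)` is at distance `≥ w p / 2 - t` from
`X / 2`.  The crossing prime `P` is the first one with `v(S_{≤ P}) ≥ X / 2`.
-/

namespace Pool.Agent.Helper78.ST

open Finset

theorem split_lt (S : Finset ℕ) (w : ℕ → ℝ) (e : ℕ) :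
    ∑ a ∈ S.filter (fun a => a < e), w a + ∑ a ∈ S.filter (fun a => e ≤ a), w a = ∑ a ∈ S, w a := by
  rw [← sum_filter_add_sum_filter_not S (fun a => a < e)]
  congr 2
  ext a
  simp

theorem sum_le_eq (S : Finset ℕ) (w : ℕ → ℝ) (e : ℕ) (he : e ∈ S) :
    ∑ a ∈ S.filter (fun a => a ≤ e), w a = ∑ a ∈ S.filter (fun a => a < e), w a + w e := by
  have h4 : S.filter (fun a => a ≤ e) = insert e (S.filter (fun a => a < e)) := by
    ext a
    simp only [mem_filter, mem_insert]
    constructor
    · rintro ⟨h, h'⟩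
      rcases h'.eq_or_lt with h'' | h''
      · exact Or.inl h''
      · exact Or.inr ⟨h, h''⟩
    · rintro (rfl | ⟨h, h'⟩)
      · exact ⟨he, le_refl _⟩
      · exact ⟨h, h'.le⟩
  rw [h4, sum_insert (by simp), add_comm]

/-- (S1) The crossing lemma.  `P` is the crossing prime, `A` the part of the primes below `P` that are
small, `C` the cluster (which contains `P`). -/
theorem crossing (S : Finset ℕ) (w : ℕ → ℝ) (X W t Λ : ℝ)
    (hpos : ∀ e ∈ S, 0 < w e)
    (hmono : ∀ e ∈ S, ∀ f ∈ S, e ≤ f → w e ≤ w f)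
    (ht : 0 ≤ t) (hW : 1 ≤ W) (hcard : (#S : ℝ) ≤ W)
    (hv1 : X - 1 ≤ ∑ a ∈ S, w a) (_hv2 : ∑ a ∈ S, w a ≤ X)
    (hΛ : ∀ p ∈ S, w p ≤ ∑ a ∈ S.filter (fun a => a < p), w a + Λ)
    (hNS : ∀ p ∈ S, ∀ I ⊆ S.filter (fun a => p ≤ a),
      w p / 2 - t ≤ |∑ a ∈ S.filter (fun a => a < p), w a + ∑ a ∈ I, w a - X / 2|)
    (hX1 : 16 * W * t < X) (hX2 : 3 + 4 * t + Λ < X) (hX3 : 2 < X) :
    ∃ P ∈ S, (∃ r ∈ S, P < r) ∧
      X / (2 * W) ≤ w P ∧
      |∑ a ∈ S.filter (fun a => a < P), w a - (X / 2 - w P / 2)| ≤ t ∧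
      (∀ p ∈ S, p ≤ P → w p ≤ (w P + 4 * t) / 3 ∨ w P - 4 * t ≤ w p) ∧
      w P - 4 * t - Λ ≤ ∑ a ∈ S.filter (fun a => a < P ∧ w a ≤ (w P + 4 * t) / 3), w a ∧
      (∃ p₁ ∈ S, p₁ ≤ P ∧ w P - 4 * t ≤ w p₁ ∧
        S.filter (fun a => a < p₁) = S.filter (fun a => a < P ∧ w a ≤ (w P + 4 * t) / 3)) ∧
      (∀ e ∈ S.filter (fun a => a < P ∧ w a ≤ (w P + 4 * t) / 3),
        ∀ J ⊆ (S.filter (fun a => a < P ∧ w a ≤ (w P + 4 * t) / 3)).filter (fun a => e ≤ a),
          w e / 2 - 2 * t ≤ |w P / 2 - ∑ a ∈ J, w a|) := by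
  have hW0 : 0 < W := by linarith
  have hX0 : 0 < X := by linarith
  -- the crossing element
  have hSne : S.Nonempty := by
    rw [nonempty_iff_ne_empty]
    rintro rfl
    simp at hv1
    linarith
  set G := S.filter (fun p => X / 2 ≤ ∑ a ∈ S.filter (fun a => a ≤ p), w a) with hG
  have hGne : G.Nonempty := by
    refine ⟨S.max' hSne, ?_⟩
    rw [hG, mem_filter]
    refine ⟨max'_mem _ _, ?_⟩
    have : S.filter (fun a => a ≤ S.max' hSne) = S := by
      rw [filter_eq_self]
      intro a ha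
      exact le_max' _ _ ha
    rw [this]
    linarith
  set P := G.min' hGne with hP
  have hPG : P ∈ G := min'_mem _ _
  have hPS : P ∈ S := (mem_filter.1 hPG).1
  have hP1 : X / 2 ≤ ∑ a ∈ S.filter (fun a => a ≤ P), w a := (mem_filter.1 hPG).2
  have hP1' := sum_le_eq S w P hPS
  have hPpos := hpos P hPS
  -- below P the sum is less than X/2
  have hP2 : ∑ a ∈ S.filter (fun a => a < P), w a < X / 2 := by
    by_cases hemp : (S.filter (fun a => a < P)).Nonempty
    · set e := (S.filter (fun a => a < P)).max' hemp with he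
      have heM := max'_mem (S.filter (fun a => a < P)) hemp
      rw [← he, mem_filter] at heM
      have h2 : S.filter (fun a => a < P) = S.filter (fun a => a ≤ e) := by
        ext a
        simp only [mem_filter]
        constructor
        · rintro ⟨h, h'⟩
          exact ⟨h, le_max' _ _ (mem_filter.2 ⟨h, h'⟩)⟩
        · rintro ⟨h, h'⟩
          exact ⟨h, lt_of_le_of_lt h' heM.2⟩
      rw [h2]
      by_contra hcon
      have : e ∈ G := by
        rw [hG, mem_filter]
        exact ⟨heM.1, not_lt.1 hcon⟩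
      exact absurd (min'_le G e this) (not_le.2 heM.2)
    · rw [not_nonempty_iff_eq_empty.1 hemp, sum_empty]
      linarith
  -- lower bound for w P
  have hwP : X / (2 * W) ≤ w P := by
    rw [div_le_iff₀ (by positivity)]
    have hup : ∑ a ∈ S.filter (fun a => a ≤ P), w a ≤ W * w P := by
      calc ∑ a ∈ S.filter (fun a => a ≤ P), w a ≤ ∑ a ∈ S.filter (fun a => a ≤ P), w P := by
            apply sum_le_sum
            intro a ha
            rw [mem_filter] at ha
            exact hmono a ha.1 P hPS ha.2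
        _ = #(S.filter (fun a => a ≤ P)) * w P := by rw [sum_const, nsmul_eq_mul]
        _ ≤ W * w P := by
            apply mul_le_mul_of_nonneg_right _ hPpos.le
            exact le_trans (by exact_mod_cast card_filter_le _ _) hcard
    nlinarith
  have hwP8 : 8 * t < w P := by
    have : 8 * t < X / (2 * W) := by
      rw [lt_div_iff₀ (by positivity)]
      nlinarith
    linarith
  -- NS(P, ∅) and NS(P, {P})
  have hn0 := hNS P hPS ∅ (empty_subset _)
  rw [sum_empty, add_zero] at hn0
  have hn1 := hNS P hPS {P} (by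
    rw [singleton_subset_iff, mem_filter]
    exact ⟨hPS, le_refl _⟩)
  rw [sum_singleton] at hn1
  have hb : |∑ a ∈ S.filter (fun a => a < P), w a - (X / 2 - w P / 2)| ≤ t := by
    rw [abs_le]
    constructor
    · rcases le_abs.1 hn1 with h | h
      · linarith
      · exfalso
        rw [hP1'] at hP1
        linarith
    · rcases le_abs.1 hn0 with h | h
      · exfalso; linarith
      · linarith
  have hb' := abs_le.1 hb
  -- (a)
  have ha : ∃ r ∈ S, P < r := by
    by_contra hcon
    push Not at hcon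
    have h2 : S.filter (fun a => a ≤ P) = S := by
      rw [filter_eq_self]
      intro a ha
      exact hcon a ha
    rw [h2] at hP1'
    have h3 := hΛ P hPS
    linarith
  -- (c)
  have hcc : ∀ p ∈ S, p ≤ P → w p ≤ (w P + 4 * t) / 3 ∨ w P - 4 * t ≤ w p := by
    intro p hp hpP
    rcases hpP.eq_or_lt with rfl | hlt
    · right; linarith
    have hns := hNS p hp ((S.filter (fun a => p ≤ a ∧ a ≤ P)).erase p) (by
      intro a ha
      rw [mem_erase, mem_filter] at ha
      exact mem_filter.2 ⟨ha.2.1, ha.2.2.1⟩)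
    have hsum : ∑ a ∈ S.filter (fun a => a < p), w a +
        ∑ a ∈ (S.filter (fun a => p ≤ a ∧ a ≤ P)).erase p, w a =
        ∑ a ∈ S.filter (fun a => a ≤ P), w a - w p := by
      have h1 : w p + ∑ a ∈ (S.filter (fun a => p ≤ a ∧ a ≤ P)).erase p, w a =
          ∑ a ∈ S.filter (fun a => p ≤ a ∧ a ≤ P), w a :=
        add_sum_erase _ _ (mem_filter.2 ⟨hp, le_refl _, hpP⟩)
      have h2 := split_lt (S.filter (fun a => a ≤ P)) w p
      rw [filter_filter, filter_filter] at h2
      have h3 : S.filter (fun a => a ≤ P ∧ a < p) = S.filter (fun a => a < p) := by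
        ext a
        simp only [mem_filter]
        constructor
        · rintro ⟨h, _, h'⟩; exact ⟨h, h'⟩
        · rintro ⟨h, h'⟩; exact ⟨h, by omega, h'⟩
      have h4 : S.filter (fun a => a ≤ P ∧ p ≤ a) = S.filter (fun a => p ≤ a ∧ a ≤ P) := by
        ext a
        simp only [mem_filter]
        tauto
      rw [h3, h4] at h2
      linarith
    rw [hsum, hP1'] at hns
    rcases le_abs.1 hns with h | h
    · left; linarith
    · right; linarith
  -- the first cluster element
  set A := S.filter (fun a => a < P ∧ w a ≤ (w P + 4 * t) / 3) with hA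
  set C := S.filter (fun a => a ≤ P ∧ w P - 4 * t ≤ w a) with hC
  have hPC : P ∈ C := by
    rw [hC, mem_filter]
    exact ⟨hPS, le_refl _, by linarith⟩
  set p₁ := C.min' ⟨P, hPC⟩ with hp₁
  have hp₁C : p₁ ∈ C := min'_mem _ _
  obtain ⟨hp₁S, hp₁P, hp₁w⟩ := mem_filter.1 hp₁C
  have hAeq : S.filter (fun a => a < p₁) = A := by
    ext a
    rw [hA]
    simp only [mem_filter]
    constructor
    · rintro ⟨h, h'⟩
      refine ⟨h, by omega, ?_⟩
      rcases hcc a h (by omega) with h1 | h1
      · exact h1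
      · exfalso
        have : a ∈ C := mem_filter.2 ⟨h, by omega, h1⟩
        exact absurd (min'_le _ _ this) (not_le.2 h')
    · rintro ⟨h, h', h''⟩
      refine ⟨h, ?_⟩
      by_contra hcon
      have := hmono p₁ hp₁S a h (not_lt.1 hcon)
      linarith
  refine ⟨P, hPS, ha, hwP, hb, hcc, ?_, ⟨p₁, hp₁S, hp₁P, hp₁w, hAeq⟩, ?_⟩
  · have := hΛ p₁ hp₁S
    rw [hAeq] at this
    linarith
  · -- NS'
    intro e he J hJ
    rw [mem_filter] at he
    obtain ⟨heS, heP, _⟩ := he
    have hJ' : J ⊆ S.filter (fun a => e ≤ a ∧ a ≤ P) := by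
      intro a ha
      have := mem_filter.1 (hJ ha)
      have h2 := mem_filter.1 this.1
      exact mem_filter.2 ⟨h2.1, this.2, h2.2.1.le⟩
    have hns := hNS e heS (S.filter (fun a => e ≤ a ∧ a ≤ P) \ J) (by
      intro a ha
      rw [mem_sdiff, mem_filter] at ha
      exact mem_filter.2 ⟨ha.1.1, ha.1.2.1⟩)
    have hsum : ∑ a ∈ S.filter (fun a => a < e), w a +
        ∑ a ∈ S.filter (fun a => e ≤ a ∧ a ≤ P) \ J, w a =
        ∑ a ∈ S.filter (fun a => a ≤ P), w a - ∑ a ∈ J, w a := by
      have h1 := sum_sdiff (f := w) hJ'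
      have h2 := split_lt (S.filter (fun a => a ≤ P)) w e
      rw [filter_filter, filter_filter] at h2
      have h3 : S.filter (fun a => a ≤ P ∧ a < e) = S.filter (fun a => a < e) := by
        ext a
        simp only [mem_filter]
        constructor
        · rintro ⟨h, _, h'⟩; exact ⟨h, h'⟩
        · rintro ⟨h, h'⟩; exact ⟨h, by omega, h'⟩
      have h4 : S.filter (fun a => a ≤ P ∧ e ≤ a) = S.filter (fun a => e ≤ a ∧ a ≤ P) := by
        ext a
        simp only [mem_filter]
        tauto
      rw [h3, h4] at h2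
      linarith
    rw [hsum, hP1'] at hns
    rcases le_abs.1 hns with h | h
    · exact le_trans (by linarith) (le_abs_self _)
    · exact le_trans (by linarith) (neg_le_abs _)

end Pool.Agent.Helper78.ST
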