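import Mathlib

/-!
Structure block, (S2): the greedy two-bin lemma.

`A` is a finite set of naturals with positive monotone weights `w` (for us `w = log`), `v(J)` is the
sum of the weights over `J`.  If no partial sum over a set `J ⊆ A_{≥ e}` is within `w e / 2 - c` of
`ℓ / 2`, and `v(A) ≥ (1 + τ) ℓ`, then for a suitable `q ∈ A` with `w q ≥ τ ℓ / (2 W)` the set `A_{> q}`
splits into two bins, each of weight `(ℓ - w q) / 2` up to `c`.
-/

namespace Pool.Agent.Helper78.ST

open Finset

/-- The greedy step: all partial bins keep residual `≥ -c`. -/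
theorem greedy_bins (A : Finset ℕ) (w : ℕ → ℝ) (ℓ c : ℝ) (q : ℕ)
    (hmono : ∀ e ∈ A, q < e → w q ≤ w e)
    (hqℓ : w q ≤ ℓ) (hc : 0 ≤ c)
    (hNS : ∀ e ∈ A, ∀ J ⊆ A.filter (fun a => e ≤ a), w e / 2 - c ≤ |ℓ / 2 - ∑ a ∈ J, w a|)
    (hbig : ∀ e ∈ A, q < e → 5 * c < w e)
    (hSig : ∀ e ∈ A, q < e → ∑ a ∈ A.filter (fun a => e ≤ a), w a < ℓ - w e + 3 * c)
    (M : ℕ) (hM : ∀ e ∈ A, e < M) (k : ℕ) (hk : q + k < M + 1) (hk' : k ≤ M) :
    ∃ J₁ J₂ : Finset ℕ, Disjoint J₁ J₂ ∧ J₁ ∪ J₂ = A.filter (fun a => M - k ≤ a ∧ q < a) ∧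
      ∑ a ∈ J₁, w a ≤ (ℓ - w q) / 2 + c ∧ ∑ a ∈ J₂, w a ≤ (ℓ - w q) / 2 + c := by
  induction k with
  | zero =>
    refine ⟨∅, ∅, by simp, ?_, ?_, ?_⟩
    · ext a
      simp only [union_self, notMem_empty, mem_filter, false_iff, not_and]
      intro ha h1
      exact absurd (hM a ha) (by omega)
    · simp; linarith
    · simp; linarith
  | succ k ih =>
    obtain ⟨J₁, J₂, hd, hu, h1, h2⟩ := ih (by omega) (by omega)
    by_cases hm : (M - (k + 1)) ∈ A ∧ q < M - (k + 1)
    · obtain ⟨hmA, hqm⟩ := hm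
      set m := M - (k + 1) with hmdef
      have hMk : M - k = m + 1 := by omega
      -- general step: add m to the bin with larger residual
      have step : ∀ K₁ K₂ : Finset ℕ, Disjoint K₁ K₂ →
          K₁ ∪ K₂ = A.filter (fun a => M - k ≤ a ∧ q < a) →
          ∑ a ∈ K₁, w a ≤ ∑ a ∈ K₂, w a → ∑ a ∈ insert m K₁, w a ≤ (ℓ - w q) / 2 + c := by
        intro K₁ K₂ hK hKu hle
        have hmK : m ∉ K₁ := by
          intro h
          have : m ∈ K₁ ∪ K₂ := mem_union_left _ h
          rw [hKu, mem_filter] at this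
          omega
        have hsub : insert m K₁ ⊆ A.filter (fun a => m ≤ a) := by
          intro a ha
          rw [mem_insert] at ha
          rw [mem_filter]
          rcases ha with rfl | ha
          · exact ⟨hmA, le_refl _⟩
          · have : a ∈ K₁ ∪ K₂ := mem_union_left _ ha
            rw [hKu, mem_filter] at this
            exact ⟨this.1, by omega⟩
        have hns := hNS m hmA _ hsub
        have hS := hSig m hmA hqm
        have hfil : A.filter (fun a => m ≤ a) = insert m (K₁ ∪ K₂) := by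
          rw [hKu]
          ext a
          simp only [mem_filter, mem_insert]
          constructor
          · rintro ⟨h, h'⟩
            by_cases ham : a = m
            · exact Or.inl ham
            · exact Or.inr ⟨h, by omega, by omega⟩
          · rintro (rfl | ⟨h, h', h''⟩)
            · exact ⟨hmA, le_refl _⟩
            · exact ⟨h, by omega⟩
        have hm' : m ∉ K₁ ∪ K₂ := by
          intro h
          rw [hKu, mem_filter] at h
          omega
        rw [hfil, sum_insert hm', sum_union hK] at hS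
        rw [sum_insert hmK] at hns ⊢
        have hb := hbig m hmA hqm
        have hwm := hmono m hmA hqm
        rcases le_abs.1 hns with h | h
        · linarith
        · exfalso
          linarith
      have hnew : ∀ K₁ K₂ : Finset ℕ, Disjoint K₁ K₂ →
          K₁ ∪ K₂ = A.filter (fun a => M - k ≤ a ∧ q < a) →
          Disjoint (insert m K₁) K₂ ∧
            (insert m K₁) ∪ K₂ = A.filter (fun a => M - (k + 1) ≤ a ∧ q < a) := by
        intro K₁ K₂ hK hKu
        have hm' : m ∉ K₁ ∪ K₂ := by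
          intro h
          rw [hKu, mem_filter] at h
          omega
        constructor
        · rw [disjoint_insert_left]
          exact ⟨fun h => hm' (mem_union_right _ h), hK⟩
        · rw [insert_union, hKu]
          ext a
          simp only [mem_filter, mem_insert]
          constructor
          · rintro (rfl | ⟨h, h', h''⟩)
            · exact ⟨hmA, by omega, hqm⟩
            · exact ⟨h, by omega, h''⟩
          · rintro ⟨h, h', h''⟩
            by_cases ham : a = m
            · exact Or.inl ham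
            · exact Or.inr ⟨h, by omega, h''⟩
      rcases le_total (∑ a ∈ J₁, w a) (∑ a ∈ J₂, w a) with hle | hle
      · obtain ⟨a1, a2⟩ := hnew J₁ J₂ hd hu
        exact ⟨insert m J₁, J₂, a1, a2, step J₁ J₂ hd hu hle, h2⟩
      · obtain ⟨a1, a2⟩ := hnew J₂ J₁ hd.symm (by rw [union_comm]; exact hu)
        exact ⟨insert m J₂, J₁, a1, a2, step J₂ J₁ hd.symm (by rw [union_comm]; exact hu) hle, h1⟩
    · refine ⟨J₁, J₂, hd, ?_, h1, h2⟩
      rw [hu]
      ext a
      simp only [mem_filter]
      constructor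
      · rintro ⟨h, h', h''⟩
        exact ⟨h, by omega, h''⟩
      · rintro ⟨h, h', h''⟩
        refine ⟨h, ?_, h''⟩
        by_contra hlt
        have : a = M - (k + 1) := by omega
        exact hm ⟨this ▸ h, this ▸ h''⟩

/-- (S2) The greedy two-bin lemma. -/
theorem greedy_split (A : Finset ℕ) (w : ℕ → ℝ) (ℓ c τ W : ℝ)
    (hpos : ∀ e ∈ A, 0 < w e)
    (hmono : ∀ e ∈ A, ∀ f ∈ A, e ≤ f → w e ≤ w f)
    (hsmall : ∀ e ∈ A, w e ≤ ℓ)
    (hNS : ∀ e ∈ A, ∀ J ⊆ A.filter (fun a => e ≤ a), w e / 2 - c ≤ |ℓ / 2 - ∑ a ∈ J, w a|)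
    (hc : 0 < c) (hτ : 0 ≤ τ) (hW : 1 ≤ W) (hcard : (#A : ℝ) ≤ W)
    (hv : (1 + τ) * ℓ ≤ ∑ a ∈ A, w a) (hℓ : 10 * W * c < τ * ℓ) :
    ∃ q ∈ A, τ * ℓ / (2 * W) ≤ w q ∧ ∃ J₁ J₂ : Finset ℕ, Disjoint J₁ J₂ ∧
      J₁ ∪ J₂ = A.filter (fun a => q < a) ∧
      |∑ a ∈ J₁, w a - (ℓ - w q) / 2| ≤ c ∧ |∑ a ∈ J₂, w a - (ℓ - w q) / 2| ≤ c := by
  have hWc : c ≤ W * c := by nlinarith
  have hτℓ : 0 < τ * ℓ := by nlinarith
  have hℓ0 : 0 < ℓ := by
    rcases lt_or_ge 0 ℓ with h | h
    · exact h
    · exfalso; nlinarith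
  -- the split of sums
  have hsplit : ∀ e : ℕ, ∑ a ∈ A.filter (fun a => a < e), w a + ∑ a ∈ A.filter (fun a => e ≤ a), w a
      = ∑ a ∈ A, w a := by
    intro e
    rw [← sum_filter_add_sum_filter_not A (fun a => a < e)]
    congr 2
    ext a
    simp
  have hAne : A.Nonempty := by
    rw [nonempty_iff_ne_empty]
    rintro rfl
    simp at hv
    nlinarith
  set G := A.filter (fun q => ∑ a ∈ A.filter (fun a => a < q), w a - w q ≤
    ∑ a ∈ A, w a - ℓ - 3 * c) with hG
  have hGne : G.Nonempty := by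
    refine ⟨A.min' hAne, ?_⟩
    rw [hG, mem_filter]
    refine ⟨min'_mem _ _, ?_⟩
    have : A.filter (fun a => a < A.min' hAne) = ∅ := by
      rw [filter_eq_empty_iff]
      intro a ha
      exact not_lt.2 (min'_le _ _ ha)
    rw [this, sum_empty]
    have := hpos _ (min'_mem A hAne)
    nlinarith
  set q := G.max' hGne with hq
  have hqG : q ∈ G := max'_mem _ _
  have hqA : q ∈ A := (mem_filter.1 hqG).1
  have hq1 := (mem_filter.1 hqG).2
  have hnotG : ∀ e ∈ A, q < e → ∑ a ∈ A, w a - ℓ - 3 * c <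
      ∑ a ∈ A.filter (fun a => a < e), w a - w e := by
    intro e he hqe
    by_contra hcon
    have : e ∈ G := by
      rw [hG, mem_filter]
      exact ⟨he, not_lt.1 hcon⟩
    exact absurd (le_max' G e this) (not_le.2 hqe)
  have hSig : ∀ e ∈ A, q < e → ∑ a ∈ A.filter (fun a => e ≤ a), w a < ℓ - w e + 3 * c := by
    intro e he hqe
    have h1 := hnotG e he hqe
    have h2 := hsplit e
    linarith
  -- lower bound for the part up to q
  have hlow : τ * ℓ - 3 * c ≤ ∑ a ∈ A.filter (fun a => a ≤ q), w a := by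
    by_cases hemp : (A.filter (fun a => q < a)).Nonempty
    · set e := (A.filter (fun a => q < a)).min' hemp with he
      have heM := min'_mem (A.filter (fun a => q < a)) hemp
      rw [← he, mem_filter] at heM
      have h1 := hnotG e heM.1 heM.2
      have h2 : A.filter (fun a => a < e) = A.filter (fun a => a ≤ q) := by
        ext a
        simp only [mem_filter]
        constructor
        · rintro ⟨h, h'⟩
          refine ⟨h, ?_⟩
          by_contra hcon
          have : a ∈ A.filter (fun a => q < a) := mem_filter.2 ⟨h, not_le.1 hcon⟩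
          exact absurd (min'_le _ _ this) (not_le.2 h')
        · rintro ⟨h, h'⟩
          exact ⟨h, lt_of_le_of_lt h' heM.2⟩
      rw [h2] at h1
      have := hpos e heM.1
      nlinarith
    · have h2 : A.filter (fun a => a ≤ q) = A := by
        rw [filter_eq_self]
        intro a ha
        by_contra hcon
        exact hemp ⟨a, mem_filter.2 ⟨ha, not_le.1 hcon⟩⟩
      rw [h2]
      nlinarith
  have hup : ∑ a ∈ A.filter (fun a => a ≤ q), w a ≤ W * w q := by
    calc ∑ a ∈ A.filter (fun a => a ≤ q), w a ≤ ∑ a ∈ A.filter (fun a => a ≤ q), w q := by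
          apply sum_le_sum
          intro a ha
          rw [mem_filter] at ha
          exact hmono a ha.1 q hqA ha.2
      _ = #(A.filter (fun a => a ≤ q)) * w q := by rw [sum_const, nsmul_eq_mul]
      _ ≤ W * w q := by
          apply mul_le_mul_of_nonneg_right _ (hpos q hqA).le
          exact le_trans (by exact_mod_cast card_filter_le _ _) hcard
  have hW0 : 0 < W := by linarith
  have hwq : τ * ℓ / (2 * W) ≤ w q := by
    rw [div_le_iff₀ (by positivity)]
    nlinarith
  have hwq5 : 5 * c < w q := by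
    have : 5 * c < τ * ℓ / (2 * W) := by
      rw [lt_div_iff₀ (by positivity)]
      nlinarith
    linarith
  have hmono' : ∀ e ∈ A, q < e → w q ≤ w e := fun e he hqe => hmono q hqA e he hqe.le
  have hbig : ∀ e ∈ A, q < e → 5 * c < w e := fun e he hqe =>
    lt_of_lt_of_le hwq5 (hmono' e he hqe)
  obtain ⟨J₁, J₂, hd, hu, h1, h2⟩ := greedy_bins A w ℓ c q hmono' (hsmall q hqA) hc.le hNS hbig hSig
    (A.sup id + 1) (fun e he => Nat.lt_succ_of_le (le_sup (f := id) he)) (A.sup id + 1 - q)
    (by have := le_sup (f := id) hqA; simp only [id] at this; omega) (by omega)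
  have hqM : q ≤ A.sup id := le_sup (f := id) hqA
  have hu' : J₁ ∪ J₂ = A.filter (fun a => q < a) := by
    rw [hu]
    ext a
    simp only [mem_filter]
    constructor
    · rintro ⟨h, _, h''⟩
      exact ⟨h, h''⟩
    · rintro ⟨h, h''⟩
      exact ⟨h, by omega, h''⟩
  refine ⟨q, hqA, hwq, J₁, J₂, hd, hu', ?_⟩
  -- total weight above q
  have htot : ℓ + 3 * c - 2 * w q ≤ ∑ a ∈ J₁, w a + ∑ a ∈ J₂, w a := by
    rw [← sum_union hd, hu']
    have h3 := hsplit q
    have h4 : A.filter (fun a => q ≤ a) = insert q (A.filter (fun a => q < a)) := by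
      ext a
      simp only [mem_filter, mem_insert]
      constructor
      · rintro ⟨h, h'⟩
        rcases h'.eq_or_lt with h'' | h''
        · exact Or.inl h''.symm
        · exact Or.inr ⟨h, h''⟩
      · rintro (rfl | ⟨h, h'⟩)
        · exact ⟨hqA, le_refl _⟩
        · exact ⟨h, h'.le⟩
    rw [h4, sum_insert (by simp)] at h3
    linarith
  have hfin : ∀ K₁ K₂ : Finset ℕ, K₁ ⊆ A.filter (fun a => q < a) →
      ∑ a ∈ K₂, w a ≤ (ℓ - w q) / 2 + c →
      ℓ + 3 * c - 2 * w q ≤ ∑ a ∈ K₁, w a + ∑ a ∈ K₂, w a →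
      ∑ a ∈ K₁, w a ≤ (ℓ - w q) / 2 + c → |∑ a ∈ K₁, w a - (ℓ - w q) / 2| ≤ c := by
    intro K₁ K₂ hK hK2 ht hK1
    have hqK : q ∉ K₁ := fun h => by
      have := (mem_filter.1 (hK h)).2
      omega
    have hsub : insert q K₁ ⊆ A.filter (fun a => q ≤ a) := by
      intro a ha
      rw [mem_insert] at ha
      rw [mem_filter]
      rcases ha with rfl | ha
      · exact ⟨hqA, le_refl _⟩
      · have := mem_filter.1 (hK ha)
        exact ⟨this.1, this.2.le⟩
    have hns := hNS q hqA _ hsub
    rw [sum_insert hqK] at hns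
    rw [abs_le]
    constructor
    · rcases le_abs.1 hns with h | h
      · exfalso; linarith
      · linarith
    · linarith
  refine ⟨hfin J₁ J₂ ?_ h2 htot h1, hfin J₂ J₁ ?_ h1 (by linarith) h2⟩
  · rw [← hu']; exact subset_union_left
  · rw [← hu']; exact subset_union_right

end Pool.Agent.Helper78.ST
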