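import Mathlib
import Pool.Agent.Helper58.LT.LDefs
import Pool.Agent.Helper78.ST.Crossing
import Pool.Agent.Helper78.ST.Greedy

/-!
Structure block: the structure theorem for a finite set of integers (the prime factors of a Lehmer
number) that satisfies NS.
-/

namespace Pool.Agent.Helper78.ST

open Finset Pool.Agent.Helper58.LT

theorem log_mono_nat {S : Finset ℕ} (hS2 : ∀ p ∈ S, 2 ≤ p) :
    ∀ e ∈ S, ∀ f ∈ S, e ≤ f → Real.log (e : ℝ) ≤ Real.log (f : ℝ) := by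
  intro e he f _ hef
  have := hS2 e he
  exact Real.log_le_log (by exact_mod_cast (by omega : 0 < e)) (by exact_mod_cast hef)

theorem log_pos_nat {S : Finset ℕ} (hS2 : ∀ p ∈ S, 2 ≤ p) :
    ∀ e ∈ S, 0 < Real.log (e : ℝ) := by
  intro e he
  have := hS2 e he
  exact Real.log_pos (by exact_mod_cast (by omega : 1 < e))

/-- The structure theorem. -/
theorem structure_thm (S : Finset ℕ) (W : ℕ) (X t Lam tau : ℝ) (hW : 1 ≤ W)
    (hS2 : ∀ p ∈ S, 2 ≤ p) (hcard : #S ≤ W)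
    (hX1 : X - 1 ≤ ls S) (hX2 : ls S ≤ X)
    (hgrow : ∀ p ∈ S, Real.log p ≤ ls (S.filter (fun a => a < p)) + Lam)
    (hNS : ∀ p ∈ S, ∀ I, I ⊆ S.filter (fun a => p ≤ a) →
      Real.log p / 2 - t ≤ |ls (S.filter (fun a => a < p)) + ls I - X / 2|)
    (ht : 1 ≤ t) (hLam : 0 ≤ Lam) (htau : 0 < tau) (htau1 : tau ≤ 1)
    (hbig : 100 * (W : ℝ) ^ 2 * (t + Lam + 1) ≤ tau * X) :
    ∃ P ∈ S, (∃ q ∈ S, P < q) ∧
      |ls (S.filter (fun a => a < P)) - (X / 2 - Real.log P / 2)| ≤ t ∧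
      X / (2 * W) ≤ Real.log P ∧
      ∃ A C : Finset ℕ, A ∪ C = S.filter (fun a => a ≤ P) ∧ Disjoint A C ∧ P ∈ C ∧
        (∀ c ∈ C, Real.log P - 4 * t ≤ Real.log c) ∧
        (∀ a ∈ A, Real.log a ≤ (Real.log P + 4 * t) / 3) ∧
        (∀ a ∈ A, ∀ c ∈ C, a < c) ∧
        Real.log P - 4 * t - Lam ≤ ls A ∧
        (ls A ≤ (1 + tau) * Real.log P ∨
          ∃ q ∈ A, tau * Real.log P / (2 * W) ≤ Real.log q ∧
            ∃ J₁ J₂ : Finset ℕ, Disjoint J₁ J₂ ∧ J₁ ∪ J₂ = A.filter (fun a => q < a) ∧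
              |ls J₁ - (Real.log P - Real.log q) / 2| ≤ 2 * t ∧
              |ls J₂ - (Real.log P - Real.log q) / 2| ≤ 2 * t) := by
  have hWR : (1 : ℝ) ≤ W := by exact_mod_cast hW
  have hW0 : (0 : ℝ) < W := by linarith
  have hX0 : 0 < X := by
    have h1 : 0 < 100 * (W : ℝ) ^ 2 * (t + Lam + 1) := by
      have : 0 < t + Lam + 1 := by linarith
      positivity
    have h2 : 0 < tau * X := lt_of_lt_of_le h1 hbig
    exact (mul_pos_iff_of_pos_left htau).mp h2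
  have hXbig : 100 * (W : ℝ) ^ 2 * (t + Lam + 1) ≤ X := hbig.trans (by nlinarith)
  have hWW : (W : ℝ) ≤ W ^ 2 := by nlinarith
  have hW1 : (1 : ℝ) ≤ (W : ℝ) ^ 2 := one_le_pow₀ hWR
  have hs0 : 0 ≤ t + Lam + 1 := by linarith
  have hX16 : 16 * (W : ℝ) * t < X := by
    have h1 : (W : ℝ) * t ≤ (W : ℝ) ^ 2 * (t + Lam + 1) :=
      mul_le_mul hWW (by linarith) (by linarith) (by positivity)
    have h2 : 0 < (W : ℝ) ^ 2 * (t + Lam + 1) := mul_pos (by positivity) (by linarith)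
    linarith
  have hX3 : 3 + 4 * t + Lam < X := by
    have h1 : 1 * (t + Lam + 1) ≤ (W : ℝ) ^ 2 * (t + Lam + 1) :=
      mul_le_mul_of_nonneg_right hW1 hs0
    linarith
  obtain ⟨P, hP, ha, hwP, hb, hcc, hd, ⟨p₁, hp₁S, hp₁P, hp₁w, hp₁A⟩, hNS'⟩ :=
    crossing S (fun a : ℕ => Real.log (a : ℝ)) X W t Lam (log_pos_nat hS2) (log_mono_nat hS2)
      (by linarith) hWR (by exact_mod_cast hcard) hX1 hX2 hgrow hNS hX16 hX3 (by linarith)
  obtain ⟨A, hA⟩ : ∃ A, A = S.filter (fun a : ℕ => a < P ∧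
    Real.log (a : ℝ) ≤ (Real.log (P : ℝ) + 4 * t) / 3) := ⟨_, rfl⟩
  rw [← hA] at hd hp₁A hNS'
  have hlogP : 50 * (W : ℝ) * (t + Lam + 1) ≤ tau * Real.log P := by
    have h1 : tau * (X / (2 * W)) ≤ tau * Real.log P := mul_le_mul_of_nonneg_left hwP htau.le
    refine le_trans ?_ h1
    rw [mul_div_assoc', le_div_iff₀ (by positivity)]
    calc 50 * (W : ℝ) * (t + Lam + 1) * (2 * W) = 100 * (W : ℝ) ^ 2 * (t + Lam + 1) := by ring
      _ ≤ _ := hbig
  have hlogP0 : 0 < Real.log (P : ℝ) := log_pos_nat hS2 P hP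
  have hlogP' : 50 * t ≤ Real.log (P : ℝ) := by
    have h1 : 1 * (t + Lam + 1) ≤ (W : ℝ) * (t + Lam + 1) := mul_le_mul_of_nonneg_right hWR hs0
    nlinarith
  have hAS : A ⊆ S := by rw [hA]; exact filter_subset _ _
  refine ⟨P, hP, ha, hb, hwP, A, S.filter (fun a => p₁ ≤ a ∧ a ≤ P), ?_, ?_, ?_, ?_, ?_, ?_, ?_, ?_⟩
  · rw [← hp₁A]
    ext a
    simp only [mem_union, mem_filter]
    constructor
    · rintro (⟨h, h'⟩ | ⟨h, h', h''⟩)
      · exact ⟨h, by omega⟩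
      · exact ⟨h, h''⟩
    · rintro ⟨h, h'⟩
      rcases Nat.lt_or_ge a p₁ with h1 | h1
      · exact Or.inl ⟨h, h1⟩
      · exact Or.inr ⟨h, h1, h'⟩
  · rw [← hp₁A, Finset.disjoint_left]
    intro a h1 h2
    rw [mem_filter] at h1 h2
    omega
  · rw [mem_filter]
    exact ⟨hP, hp₁P, le_refl _⟩
  · intro c hc
    rw [mem_filter] at hc
    exact hp₁w.trans (log_mono_nat hS2 p₁ hp₁S c hc.1 hc.2.1)
  · intro a ha'
    rw [hA, mem_filter] at ha'
    exact ha'.2.2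
  · intro a ha' c hc
    rw [← hp₁A, mem_filter] at ha'
    rw [mem_filter] at hc
    omega
  · exact hd
  · by_cases hcase : ls A ≤ (1 + tau) * Real.log P
    · exact Or.inl hcase
    · right
      rw [not_le] at hcase
      have hAcard : ((#A : ℕ) : ℝ) ≤ W := by
        exact_mod_cast (card_le_card hAS).trans hcard
      have hS2A : ∀ p ∈ A, 2 ≤ p := fun p hp => hS2 p (hAS hp)
      have hsm : ∀ e ∈ A, Real.log (e : ℝ) ≤ Real.log (P : ℝ) := by
        intro e he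
        rw [hA, mem_filter] at he
        linarith [he.2.2]
      obtain ⟨q, hq, h1, J₁, J₂, h2, h3, h4, h5⟩ :=
        greedy_split A (fun a : ℕ => Real.log (a : ℝ)) (Real.log P) (2 * t) tau W
          (log_pos_nat hS2A) (log_mono_nat hS2A) hsm hNS' (by linarith) htau.le hWR hAcard
          hcase.le (by
            have h1 : (W : ℝ) * t ≤ (W : ℝ) * (t + Lam + 1) :=
              mul_le_mul_of_nonneg_left (by linarith) (by linarith)
            have h2 : 0 < (W : ℝ) * t := mul_pos hW0 (by linarith)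
            linarith)
      exact ⟨q, hq, h1, J₁, J₂, h2, h3, h4, h5⟩

end Pool.Agent.Helper78.ST
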