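import Mathlib
import Pool.Agent.Helper58.LT.ClassDefs
import Pool.Agent.Helper58.LT.Spacing
import Pool.Agent.Helper78.ST.Structure

/-!
Preparations for the bridge: logarithms of products, dyadic exponents, the structure theorem applied
to the prime factors of a Lehmer number.
-/

namespace Pool.Agent.Helper78.ST

open Finset Pool.Agent.Helper6.Lehmer Pool.Agent.Helper6.LehmerCount Pool.Agent.Helper58.LT

theorem ls_prod (I : Finset ℕ) (hI : ∀ p ∈ I, 0 < p) :
    ls I = Real.log ((∏ p ∈ I, p : ℕ) : ℝ) := by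
  unfold ls
  push_cast
  rw [Real.log_prod]
  intro p hp
  have := hI p hp
  positivity

theorem natlog_bounds {m : ℕ} (hm : 0 < m) :
    (Nat.log 2 m : ℝ) * Real.log 2 ≤ Real.log m ∧
      Real.log m ≤ ((Nat.log 2 m : ℝ) + 1) * Real.log 2 := by
  have h1 : 2 ^ Nat.log 2 m ≤ m := Nat.pow_log_le_self 2 (by omega)
  have h2 : m < 2 ^ (Nat.log 2 m + 1) := Nat.lt_pow_succ_log_self (by norm_num) m
  have h1' : (2 : ℝ) ^ Nat.log 2 m ≤ m := by exact_mod_cast h1
  have h2' : (m : ℝ) ≤ 2 ^ (Nat.log 2 m + 1) := by exact_mod_cast h2.le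
  have hm' : (0 : ℝ) < m := by exact_mod_cast hm
  have h3 := Real.log_le_log (by positivity) h1'
  have h4 := Real.log_le_log hm' h2'
  rw [Real.log_pow] at h3 h4
  push_cast at h4
  exact ⟨h3, h4⟩

theorem natlog_le {m l : ℕ} (hm : m ≤ 2 ^ l) : Nat.log 2 m ≤ l := by
  rcases Nat.eq_zero_or_pos m with h0 | h0
  · subst h0; simp
  · have h1 : 2 ^ Nat.log 2 m ≤ 2 ^ l := (Nat.pow_log_le_self 2 (by omega)).trans hm
    exact (Nat.pow_le_pow_iff_right (by norm_num)).mp h1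

theorem sub_pos {n : ℕ} {I : Finset ℕ} (hI : I ⊆ n.primeFactors) : ∀ p ∈ I, 0 < p :=
  fun _ hp => (Nat.prime_of_mem_primeFactors (hI hp)).pos

theorem prod_sub_pos {n : ℕ} {I : Finset ℕ} (hI : I ⊆ n.primeFactors) : 0 < ∏ p ∈ I, p :=
  Finset.prod_pos (sub_pos hI)

theorem prod_sub_le {n : ℕ} (hn : 0 < n) {I : Finset ℕ} (hI : I ⊆ n.primeFactors) :
    ∏ p ∈ I, p ≤ n := by
  apply Nat.le_of_dvd hn
  exact (Finset.prod_dvd_prod_of_subset _ _ _ hI).trans (Nat.prod_primeFactors_dvd n)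

theorem ls_union {I J : Finset ℕ} (h : Disjoint I J) : ls (I ∪ J) = ls I + ls J := by
  unfold ls
  exact Finset.sum_union h

theorem ls_nonneg (I : Finset ℕ) : 0 ≤ ls I := by
  unfold ls
  exact Finset.sum_nonneg (fun p _ => Real.log_natCast_nonneg p)

/-- the numerical size condition -/
theorem size_cond {W l : ℕ} (hW : 4 ≤ W) (hl : W ^ 60 ≤ l) :
    100 * (W : ℝ) ^ 2 * ((W : ℝ) + Real.log (2 * W) + 1) ≤
      1 / (512 * (W : ℝ) ^ 4) * ((l : ℝ) * Real.log 2) := by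
  have hWR : (4 : ℝ) ≤ W := by exact_mod_cast hW
  have hW0 : (0 : ℝ) < W := by linarith
  have h1 : Real.log (2 * W) ≤ 2 * W := by
    have := Real.log_le_sub_one_of_pos (show (0 : ℝ) < 2 * W by positivity)
    linarith
  have h2 : (W : ℝ) + Real.log (2 * W) + 1 ≤ 4 * W := by linarith
  have h3 : (W : ℝ) ^ 60 ≤ l := by exact_mod_cast hl
  have h4 := Real.log_two_gt_d9
  have h5 : 100 * (W : ℝ) ^ 2 * ((W : ℝ) + Real.log (2 * W) + 1) ≤ 400 * (W : ℝ) ^ 3 := by
    calc 100 * (W : ℝ) ^ 2 * ((W : ℝ) + Real.log (2 * W) + 1) ≤ 100 * (W : ℝ) ^ 2 * (4 * W) :=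
          mul_le_mul_of_nonneg_left h2 (by positivity)
      _ = _ := by ring
  refine h5.trans ?_
  rw [div_mul_eq_mul_div, one_mul, le_div_iff₀ (by positivity)]
  have h6 : (4 : ℝ) ^ 53 ≤ (W : ℝ) ^ 53 := pow_le_pow_left₀ (by norm_num) hWR 53
  have h7 : (W : ℝ) ^ 60 = (W : ℝ) ^ 53 * (W : ℝ) ^ 7 := by ring
  have h8 : (0 : ℝ) < (W : ℝ) ^ 7 := by positivity
  calc 400 * (W : ℝ) ^ 3 * (512 * (W : ℝ) ^ 4) = 204800 * (W : ℝ) ^ 7 := by ring
    _ ≤ ((W : ℝ) ^ 53 / 2) * (W : ℝ) ^ 7 := by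
        apply mul_le_mul_of_nonneg_right _ h8.le
        have : (409600 : ℝ) ≤ 4 ^ 53 := by norm_num
        linarith
    _ = (W : ℝ) ^ 60 * (1 / 2) := by rw [h7]; ring
    _ ≤ (l : ℝ) * Real.log 2 := by
        apply mul_le_mul h3 (by linarith) (by norm_num)
        positivity

/-- The structure theorem for a Lehmer number. -/
theorem idx_structure {l W k n : ℕ} (hW : 4 ≤ W) (hl : W ^ 60 ≤ l) (h : Idx n k) (hn : n ≤ 2 ^ l)
    (hn2 : 2 ^ (l - 1) < n) (hc : n.primeFactors.card ≤ W) (hNS : ¬ NSfail n l W) :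
    ∃ P ∈ n.primeFactors, (∃ q ∈ n.primeFactors, P < q) ∧
      |ls (n.primeFactors.filter (fun a => a < P)) -
        ((l : ℝ) * Real.log 2 / 2 - Real.log P / 2)| ≤ W ∧
      (l : ℝ) * Real.log 2 / (2 * W) ≤ Real.log P ∧
      ∃ A C : Finset ℕ, A ∪ C = n.primeFactors.filter (fun a => a ≤ P) ∧ Disjoint A C ∧ P ∈ C ∧
        (∀ c ∈ C, Real.log P - 4 * W ≤ Real.log c) ∧
        (∀ a ∈ A, Real.log a ≤ (Real.log P + 4 * W) / 3) ∧
        (∀ a ∈ A, ∀ c ∈ C, a < c) ∧
        Real.log P - 4 * W - Real.log (2 * W) ≤ ls A ∧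
        (ls A ≤ (1 + 1 / (512 * (W : ℝ) ^ 4)) * Real.log P ∨
          ∃ q ∈ A, 1 / (512 * (W : ℝ) ^ 4) * Real.log P / (2 * W) ≤ Real.log q ∧
            ∃ J₁ J₂ : Finset ℕ, Disjoint J₁ J₂ ∧ J₁ ∪ J₂ = A.filter (fun a => q < a) ∧
              |ls J₁ - (Real.log P - Real.log q) / 2| ≤ 2 * W ∧
              |ls J₂ - (Real.log P - Real.log q) / 2| ≤ 2 * W) := by
  have hWR : (4 : ℝ) ≤ W := by exact_mod_cast hW
  have hW0 : (0 : ℝ) < W := by linarith
  have hn1 := h.lehmer.one_lt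
  have hnR : (0 : ℝ) < n := by exact_mod_cast (by omega : 0 < n)
  have hsq := h.lehmer.squarefree
  have hlsn : ls n.primeFactors = Real.log n := by
    rw [ls_prod _ (sub_pos (Finset.Subset.refl _)), Nat.prod_primeFactors_of_squarefree hsq]
  have hl1 : 1 ≤ l := by
    have : 1 ≤ W ^ 60 := Nat.one_le_pow _ _ (by omega)
    omega
  have hlog2 := Real.log_two_lt_d9
  refine structure_thm n.primeFactors W ((l : ℝ) * Real.log 2) W (Real.log (2 * W))
    (1 / (512 * (W : ℝ) ^ 4)) (by omega) (fun p hp => (Nat.prime_of_mem_primeFactors hp).two_le) hc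
    ?_ ?_ ?_ ?_ (by linarith) (Real.log_nonneg (by linarith)) (by positivity) ?_ (size_cond hW hl)
  · rw [hlsn]
    have h1 : (2 : ℝ) ^ (l - 1) ≤ n := by exact_mod_cast hn2.le
    have h2 := Real.log_le_log (by positivity) h1
    rw [Real.log_pow, Nat.cast_sub hl1, Nat.cast_one] at h2
    linarith
  · rw [hlsn]
    have h1 : (n : ℝ) ≤ 2 ^ l := by exact_mod_cast hn
    have h2 := Real.log_le_log hnR h1
    rw [Real.log_pow] at h2
    exact h2
  · intro p hp
    have h1 := h.prime_le hp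
    have hpp := Nat.prime_of_mem_primeFactors hp
    have h2 : p ≤ 2 * W * sm p n := h1.le.trans (Nat.mul_le_mul_right _ (by omega))
    have h3 : (p : ℝ) ≤ 2 * W * sm p n := by exact_mod_cast h2
    have hpR : (0 : ℝ) < p := by exact_mod_cast hpp.pos
    have h4 := Real.log_le_log hpR h3
    have hs0 : (0 : ℝ) < sm p n := by exact_mod_cast sm_pos p n
    rw [Real.log_mul (by positivity) (by positivity)] at h4
    have h5 : ls (n.primeFactors.filter (fun a => a < p)) = Real.log (sm p n) := by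
      rw [ls_prod _ (sub_pos (filter_subset _ _))]
      rfl
    rw [h5]
    linarith
  · intro p hp I hI
    by_contra hcon
    rw [not_le] at hcon
    apply hNS
    refine ⟨p, hp, ∏ q ∈ I, q, ?_, ?_⟩
    · unfold lg
      apply Finset.prod_dvd_prod_of_subset
      intro q hq
      have := hI hq
      rw [mem_filter] at this ⊢
      exact ⟨this.1, by omega⟩
    · have hIS : I ⊆ n.primeFactors := hI.trans (filter_subset _ _)
      have h5 : ls (n.primeFactors.filter (fun a => a < p)) = Real.log (sm p n) := by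
        rw [ls_prod _ (sub_pos (filter_subset _ _))]
        rfl
      rw [h5, ls_prod I (sub_pos hIS)] at hcon
      exact hcon
  · rw [div_le_one (by positivity)]
    have : (1 : ℝ) ≤ (W : ℝ) ^ 4 := one_le_pow₀ (by linarith)
    linarith

end Pool.Agent.Helper78.ST
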